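import Pool.Agent.P8H49.WT.Mat

/-!
# The map of Matthews near the values of additive functions

The question is whether all trajectories of the map `T` which contain no multiple of `3` end in `-1` or in `-2, -4`.

Let `H = h_1 ∘ ⋯ ∘ h_k` where each `h_i` is dominated by the largest prime factor (`PD`): for `m ≥ 1` and the primes `p ≥ C`
larger than all prime powers dividing `m` the value `h (m p)` is at most `C p (1 + log (m p))^C`, and it determines `p`. For
example all additive functions with `h (q^j) ≤ C q^j` at the prime powers, injective at the large primes (the sum of the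
prime factors, with or without multiplicity), the largest prime factor and Kempner's function. Let `F(v)` be a function with
steps bounded below by a positive constant and of growth at most `v^D`, `D ≥ 1` (`Expanding`; for example `c v^D`), `0 ≤ μ` and
`0.629 D + μ < 1`.

Then there are `c > 0` and `K` such that for all `X ≥ 1` and all `m ≤ X` but at most `K X exp (- c (log X)^(1 / (k + 1)))` the
trajectories of ALL integers `x` with `| |x| - F(H(m)) | ≤ H(m)^μ` contain a multiple of `3`, so that the answer to Q1 is
yes for them. For example this holds for all `x` near the largest prime factor of `m`.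

The number of the `x` with `|x| ≤ X` whose trajectory contains no multiple of `3` is `O(X^0.629)` by the starting theorem
`AvoidingLaw` of this problem; this is combined with a theorem of the starting library on the preimages of thin sets under
functions dominated by the largest prime factor.
-/

set_option autoImplicit false

namespace Pool.Agent.Results.MP_9d5c58_nt.AdditiveValues

open Pool.Agent.P8H49.WT (few_avoid near_add avoid_iff)
open Pool.Agent.Results.MP_9d5c58_nt.AvoidingLaw (T Avoids)
open Pool.Agent.N375.AV (PD comp pd_additive pd_sopfr pd_largest pd_kempner)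
open Pool.Agent.N733.TG (Expanding expanding_pow)

theorem result :
    (∀ (hs : List (ℕ → ℕ)) (F : ℕ → ℝ) (D μ : ℝ), (∀ h ∈ hs, PD h) → Expanding F D → 0 ≤ μ → D * 0.629 + μ < 1 →
      ∃ c K : ℝ, 0 < c ∧ ∀ X : ℕ, 1 ≤ X →
        ({m : ℕ | 1 ≤ m ∧ m ≤ X ∧ ∃ x : ℤ, abs (|(x : ℝ)| - F (comp hs m)) ≤ (comp hs m : ℝ) ^ μ ∧
          Avoids x}.ncard : ℝ) ≤ K * X * Real.exp (-(c * Real.log X ^ ((1 : ℝ) / (hs.length + 1))))) ∧
    ((∀ h : ℕ → ℕ, (∀ a b : ℕ, Nat.Coprime a b → h (a * b) = h a + h b) →
      (∃ C : ℕ, ∀ q j : ℕ, q.Prime → 1 ≤ j → h (q ^ j) ≤ C * q ^ j) →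
      (∃ P : ℕ, ∀ p q : ℕ, p.Prime → q.Prime → P ≤ p → P ≤ q → h p = h q → p = q) → PD h) ∧
      PD (fun n => n.primeFactorsList.sum) ∧ PD (fun n => n.primeFactors.sup id) ∧
      PD (fun n => sInf {k : ℕ | n ∣ k.factorial})) ∧
    ∀ c D : ℝ, 0 < c → 1 ≤ D → Expanding (fun v => c * (v : ℝ) ^ D) D := by
  refine ⟨fun hs F D μ hhs hF hμ hD => ?_, ⟨fun h h1 h2 h3 => pd_additive h1 h2 h3, pd_sopfr, pd_largest, pd_kempner⟩,
    fun c D hc hD => expanding_pow hc hD⟩
  have h1 := near_add (by norm_num) few_avoid hs hhs hF hμ hD
  simpa only [avoid_iff] using h1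

end Pool.Agent.Results.MP_9d5c58_nt.AdditiveValues
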