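import Pool.Agent.P8H49.WT.Mat

/-!
# The map of Matthews near the denominators of good approximations

The question is whether all trajectories of the map `T` which contain no multiple of `3` end in `-1` or in `-2, -4`.

Let `F(v)` be a function with steps bounded below by a positive constant and of growth at most `v^D`, `D ≥ 1` (`Expanding`; for
example `F(v) = v` or `c v^D`), `0 ≤ μ ≤ 1`, `β ∈ ℝ^M`, `τ > 0` and `f = 0.629 D + μ`. For all `α ∈ ℝ^M` outside of a set of
Hausdorff dimension at most `(M + f) / (1 + τ)` and all `c`: for all but finitely many solutions `q` of the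
inequalities `‖q α_j - β_j‖ ≤ c q^(-τ)`, `j ≤ M`, the trajectories of ALL integers `x` with `| |x| - F(q) | ≤ q^μ`
contain a multiple of `3`, so that the answer to Q1 is yes for them.

For `τ = 1 / M`, `β = 0` these `q` include the denominators of all best simultaneous approximations (for `M = 1` all
denominators of the convergents of `α`), a sequence which grows exponentially; the bound for the dimension is less than `M`
if `f < 1`, so in this case the statement holds for almost all `α`.

The number of the `x` with `|x| ≤ X` whose trajectory contains no multiple of `3` is `O(X^0.629)` by the starting theorem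
`AvoidingLaw` of this problem; this is combined with a covering theorem of the starting library.
-/

set_option autoImplicit false

namespace Pool.Agent.Results.MP_9d5c58_nt.GoodApproximations

open Pool.Agent.P8H49.WT (few_avoid near_approx avoids_ne)
open Pool.Agent.Results.MP_9d5c58_nt.AvoidingLaw (T Avoids)
open Pool.Agent.N671.DA (Solves Expanding expanding_pow)

theorem result :
    (∀ (F : ℕ → ℝ) (D μ : ℝ), Expanding F D → 0 ≤ μ → μ ≤ 1 → ∀ (M : ℕ) (β : Fin M → ℝ) (τ : ℝ), 0 < τ →
      ∃ E : Set (Fin M → ℝ), dimH E ≤ ENNReal.ofReal ((M + (D * 0.629 + μ)) / (1 + τ)) ∧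
        ∀ α, α ∉ E → ∀ c : ℝ, ∃ Q : ℕ, ∀ q : ℕ, Q ≤ q → Solves α β q (c * (q : ℝ) ^ (-τ)) →
          ∀ x : ℤ, abs (|(x : ℝ)| - F q) ≤ (q : ℝ) ^ μ → ∃ k : ℕ, (3 : ℤ) ∣ T^[k] x) ∧
    ∀ c D : ℝ, 0 < c → 1 ≤ D → Expanding (fun v => c * (v : ℝ) ^ D) D := by
  refine ⟨fun F D μ hF hμ hμ1 M β τ hτ => ?_, fun c D hc hD => expanding_pow hc hD⟩
  obtain ⟨E, hE, h⟩ := near_approx (by norm_num) few_avoid hF hμ hμ1 β hτ
  refine ⟨E, hE, fun α hα c => ?_⟩
  obtain ⟨Q, hQ⟩ := h α hα c
  refine ⟨Q, fun q hq h1 x hx => ?_⟩
  by_contra hcon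
  push Not at hcon
  have hav : Avoids x := hcon
  have h6 : |(x : ℝ)| = (x.natAbs : ℝ) := by
    rw [Nat.cast_natAbs, Int.cast_abs]
  have h3 := avoids_ne hav
  rw [h6] at hx
  exact hQ q hq h1 x.natAbs (by omega) hx x rfl hav

end Pool.Agent.Results.MP_9d5c58_nt.GoodApproximations
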