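import Pool.Agent.P8H49.WT.Mat

/-!
# The map of Matthews near the values of multiplicative functions

The question is whether all trajectories of the map `T` which contain no multiple of `3` end in `-1` or in `-2, -4`. We show that
there are no such trajectories which start near the values of multiplicative functions, for almost all arguments.

Let `g` be a multiplicative function with positive integral values, of polynomial growth, with `g(p) ≤ M p` at the primes and
injective on the large primes (`LM`; for example the function `φ` of Euler or the sum of the divisors), let `F(v)` be a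
function with steps bounded below by a positive constant and of growth at most `v^D`, `D ≥ 1` (`Expanding`; for example
`F(v) = v` or `c v^D`), and let `0 ≤ μ`, `0.629 D + μ < 1`.

(1) For every `A` and all but `X / (log X)^A` integers `m ≤ X` the trajectories of ALL integers `x` with
`| |x| - F(g(m)) | ≤ g(m)^μ` contain a multiple of `3`, so that the answer to Q1 is yes for them.

(2) There is a function `K(m)` which tends to infinity such that for almost all `m`, for all `k ≤ K(m)`, this holds for ALL
integers `x` with `| |x| - F(g(φ_k(m))) | ≤ g(φ_k(m))^μ`, `φ_k` the `k`-th iterate of the function of Euler.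

The values of `g` and of the iterates are taken with large multiplicities and have density zero. The number of the `x` with
`|x| ≤ X` whose trajectory contains no multiple of `3` is `O(X^0.629)` by the starting theorem `AvoidingLaw` of this problem;
this is combined with the theorems of the starting library on the fibres of multiplicative functions and on the orbits of `φ`.
-/

set_option autoImplicit false

open Filter

namespace Pool.Agent.Results.MP_9d5c58_nt.NearMultiplicativeValues

open Pool.Agent.P8H49.WT (few_avoid near_mult near_orb avoid_iff)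
open Pool.Agent.Results.MP_9d5c58_nt.AvoidingLaw (T Avoids)
open Pool.Agent.N733.TG (LM Expanding lm_totient lm_sigma expanding_pow)

theorem result :
    (∀ (g : ℕ → ℕ) (F : ℕ → ℝ) (D μ : ℝ), LM g → Expanding F D → 0 ≤ μ → D * 0.629 + μ < 1 →
      -- (1)
      (∀ A : ℕ, ∃ X₀ : ℕ, ∀ X : ℕ, X₀ ≤ X →
        ({m : ℕ | 1 ≤ m ∧ m ≤ X ∧ ∃ x : ℤ, abs (|(x : ℝ)| - F (g m)) ≤ (g m : ℝ) ^ μ ∧ Avoids x}.ncard : ℝ) ≤
          X / Real.log X ^ A) ∧
      -- (2)
      ∃ K : ℕ → ℕ, Tendsto K atTop atTop ∧ ∀ δ : ℝ, 0 < δ → ∃ X₀ : ℕ, ∀ X : ℕ, X₀ ≤ X →
        ({m : ℕ | 1 ≤ m ∧ m ≤ X ∧ ∃ k ≤ K m, ∃ x : ℤ,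
          abs (|(x : ℝ)| - F (g (Nat.totient^[k] m))) ≤ (g (Nat.totient^[k] m) : ℝ) ^ μ ∧ Avoids x}.ncard : ℝ) ≤
            δ * X) ∧
    LM Nat.totient ∧ LM (fun m => ∑ d ∈ m.divisors, d) ∧
    ∀ c D : ℝ, 0 < c → 1 ≤ D → Expanding (fun v => c * (v : ℝ) ^ D) D := by
  refine ⟨fun g F D μ hg hF hμ hD => ⟨?_, ?_⟩, lm_totient, lm_sigma, fun c D hc hD => expanding_pow hc hD⟩
  · have h1 := near_mult (by norm_num) few_avoid hg hF hμ hD
    simpa only [avoid_iff] using h1
  · have h1 := near_orb (by norm_num) few_avoid hg hF hμ hD
    simpa only [avoid_iff] using h1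

end Pool.Agent.Results.MP_9d5c58_nt.NearMultiplicativeValues
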