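import Pool.Agent.P8H49.WT.Mat
import Pool.Agent.R482.ST.Star

/-!
# The map of Matthews near powers, orbits and other sequences

The question is whether all trajectories of the map `T` which contain no multiple of `3` end in `-1` or in `-2, -4`.

Let `f_n`, `n = 0, 1, 2, …`, be positive functions on `(a, ∞)`, `a ≥ 0`, such that `f_n(x) / x` is nondecreasing, and such
that the sequence `f_n(x)` has exponent of convergence at most `τ` for each `x > a`: for instance `f_n(x) = u_n x` (`τ = 0` for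
`u_n = 2 ^ n`, `τ = 1 / k` for `u_n = (n + 1) ^ k`), `f_n(x) = x ^ (u_n)` for exponents `u_n ≥ 1` (`τ = 0`; for example all
powers), and the orbits `f_n(x) = g (g (⋯ g (x)))` of any map `g` with `g(x) > x` and `g(x) / x` nondecreasing (`τ = 0`).

Let `θ < 1`. For all `α > a` outside a set of Hausdorff dimension at most `(0.629 + τ) / (1 - θ)` and all `c`, for all but
finitely many `n`, the trajectories of ALL integers `x` with `| |x| - f_n(α) | ≤ c f_n(α) ^ θ` contain a multiple of `3`,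
so that the answer to Q1 is yes for them. For `τ = 0`, `θ < 0.371` the bound is less than one, and the statement holds for
almost all `α`: for example for all integers `x` near the powers `α ^ n` or near the numbers `α 2 ^ n`, `n` large.

The number of the `x` with `|x| ≤ X` whose trajectory contains no multiple of `3` is `O(X^0.629)` by the starting theorem
`AvoidingLaw` of this problem; this is combined with a theorem of the starting library on windows.
-/

set_option autoImplicit false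

namespace Pool.Agent.Results.MP_9d5c58_nt.StarshapedWindows

open Pool.Agent.P8H49.WT (count_avoid)
open Pool.Agent.Results.MP_9d5c58_nt.AvoidingLaw (T Avoids)

/-- the functions `f n` are positive on `(a, ∞)`, `a ≥ 0`, and `f n x / x` is nondecreasing there -/
def Starshaped (a : ℝ) (f : ℕ → ℝ → ℝ) : Prop :=
  0 ≤ a ∧ ∀ n : ℕ, ∀ x y : ℝ, a < x → x ≤ y → 0 < f n x ∧ f n x / x ≤ f n y / y

/-- for each `x > a` the exponent of convergence of the sequence `f n x` is at most `τ` -/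
def ExpLe (a : ℝ) (f : ℕ → ℝ → ℝ) (τ : ℝ) : Prop :=
  ∀ x : ℝ, a < x → ∀ t : ℝ, τ < t → Summable (fun n : ℕ => (f n x) ^ (-t))

theorem result :
    (∀ (a : ℝ) (f : ℕ → ℝ → ℝ) (τ θ : ℝ), Starshaped a f → 0 ≤ τ → ExpLe a f τ → θ < 1 →
      ∃ E : Set ℝ, dimH E ≤ ENNReal.ofReal ((0.629 + τ) / (1 - θ)) ∧
        ∀ α : ℝ, a < α → α ∉ E → ∀ c : ℝ, ∃ n₀ : ℕ, ∀ n : ℕ, n₀ ≤ n → ∀ x : ℤ,
          abs (|(x : ℝ)| - f n α) ≤ c * (f n α) ^ θ → ∃ k : ℕ, (3 : ℤ) ∣ T^[k] x) ∧
    (∀ (u : ℕ → ℝ) (τ : ℝ), (∀ n, 0 < u n) → (∀ t : ℝ, τ < t → Summable (fun n : ℕ => (u n) ^ (-t))) →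
      Starshaped 0 (fun n x => u n * x) ∧ ExpLe 0 (fun n x => u n * x) τ) ∧
    (∀ u : ℕ → ℝ, (∀ n, 1 ≤ u n) → (∀ t : ℝ, 0 < t → Summable fun n : ℕ => Real.exp (-(t * u n))) →
      Starshaped 1 (fun n x => x ^ (u n)) ∧ ExpLe 1 (fun n x => x ^ (u n)) 0) ∧
    (∀ (a : ℝ) (g : ℝ → ℝ), 0 ≤ a → (∀ x y : ℝ, a < x → x ≤ y → g x / x ≤ g y / y) → (∀ x : ℝ, a < x → x < g x) →
      Starshaped a (fun n x => g^[n] x) ∧ ExpLe a (fun n x => g^[n] x) 0) := by
  refine ⟨fun a f τ θ hf hτ hE hθ1 => ?_, Pool.Agent.R482.ST.ex_mul, Pool.Agent.R482.ST.ex_pow,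
    Pool.Agent.R482.ST.ex_orbit⟩
  obtain ⟨C, hC, h⟩ := count_avoid
  obtain ⟨E, hE1, hE2⟩ := Pool.Agent.R482.ST.windows {x : ℤ | Avoids x} (fun x : ℤ => |(x : ℝ)|) hf hτ hE
    (s := 0.629) (by norm_num) hθ1 (fun ε hε => ⟨C, fun X hX => ⟨(h X hX).1, (h X hX).2.trans (by
      refine mul_le_mul_of_nonneg_left ?_ hC
      exact Real.rpow_le_rpow_of_exponent_le hX (by linarith))⟩⟩)
  refine ⟨E, hE1, fun α hα hαE c => ?_⟩
  obtain ⟨n₀, hn⟩ := hE2 α hα hαE c
  refine ⟨n₀, fun n hn1 x hx => ?_⟩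
  by_contra hcon
  push Not at hcon
  have hav : Avoids x := hcon
  exact absurd (hn n hn1 x hav) (not_lt.2 hx)

end Pool.Agent.Results.MP_9d5c58_nt.StarshapedWindows
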